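import Mathlib

/-!
# FAT chromatic number with a prescribed parameter

For every `k ≥ 2` and rational `0 < α ≤ 1/(k-1)` there is a connected graph with FAT chromatic
number exactly `k` having a FAT `k`-colouring with parameter `α`.
-/

open Finset

namespace Pool.Agent.Results.MP_2d49c6_co.PrescribedParameter

/-- The number of neighbours of `v` in the colour class `i` of `c`. -/
noncomputable def nbrs {V : Type} (G : SimpleGraph V) {k : ℕ} (c : V → Fin k) (v : V)
    (i : Fin k) : ℕ :=
  {w : V | G.Adj v w ∧ c w = i}.ncard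

/-- The degree of `v`. -/
noncomputable def deg {V : Type} (G : SimpleGraph V) (v : V) : ℕ := (G.neighborSet v).ncard

/-- `c` is a FAT `k`-colouring of `G` with parameter `α ∈ [0, 1]`: it is surjective, every vertex
`v` has exactly `α * deg v` neighbours in every class other than its own and
`(1 - (k - 1) * α) * deg v` neighbours in its own class. -/
structure IsFAT {V : Type} (G : SimpleGraph V) (k : ℕ) (α : ℝ) (c : V → Fin k) : Prop where
  surj : Function.Surjective c
  nonneg : 0 ≤ α
  le_one : α ≤ 1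
  other : ∀ v i, i ≠ c v → (nbrs G c v i : ℝ) = α * deg G v
  own : ∀ v, (nbrs G c v (c v) : ℝ) = (1 - ((k : ℝ) - 1) * α) * deg G v

/-- The FAT chromatic number: the largest `k` such that `G` has a FAT `k`-colouring. -/
noncomputable def fatChromaticNumber {V : Type} (G : SimpleGraph V) : ℕ :=
  sSup {k : ℕ | ∃ (α : ℝ) (c : V → Fin k), IsFAT G k α c}

section Upper

variable {V : Type} [Finite V] {G : SimpleGraph V}

/-- True twins of different colours force their degree to divide every degree. -/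
theorem twin_dvd {K : ℕ} (hK : 2 ≤ K) {α : ℝ} {c : V → Fin K} (hc : IsFAT G K α c)
    {u u' : V} (htwin : ∀ x, (x = u ∨ G.Adj u x) ↔ (x = u' ∨ G.Adj u' x)) (hne : c u ≠ c u')
    (w : V) : deg G u ∣ deg G w := by
  have huu' : u ≠ u' := fun h => hne (by rw [h])
  -- equal degrees
  have hnu : u ∉ G.neighborSet u := by simp
  have hnu' : u' ∉ G.neighborSet u' := by simp
  have hdeg : deg G u = deg G u' := by
    have h1 : insert u (G.neighborSet u) = insert u' (G.neighborSet u') := by
      ext x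
      simpa using htwin x
    have h2 := congrArg Set.ncard h1
    rw [Set.ncard_insert_of_notMem hnu (Set.toFinite _),
      Set.ncard_insert_of_notMem hnu' (Set.toFinite _)] at h2
    unfold deg
    omega
  have hcount : nbrs G c u (c u) + 1 = nbrs G c u' (c u) := by
    unfold nbrs
    rw [← Set.ncard_insert_of_notMem (a := u) (by simp) (Set.toFinite _)]
    congr 1
    ext x
    simp only [Set.mem_insert_iff, Set.mem_ofPred_eq]
    constructor
    · rintro (rfl | ⟨h1, h2⟩)
      · have := (htwin x).1 (Or.inl rfl)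
        rcases this with h | h
        · exact absurd h huu'
        · exact ⟨h, rfl⟩
      · have := (htwin x).1 (Or.inr h1)
        rcases this with h | h
        · exfalso; apply hne; rw [← h2, h]
        · exact ⟨h, h2⟩
    · rintro ⟨h1, h2⟩
      rcases (htwin x).2 (Or.inr h1) with h | h
      · exact Or.inl h
      · exact Or.inr ⟨h, h2⟩
  have h1 := hc.own u
  have h2 := hc.other u' (c u) hne
  have h3 : (nbrs G c u (c u) : ℝ) + 1 = nbrs G c u' (c u) := by exact_mod_cast hcount
  rw [← hdeg] at h2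
  rw [h1, h2] at h3
  -- other vertex
  obtain ⟨j, hj⟩ : ∃ j : Fin K, j ≠ c w := by
    have : Nontrivial (Fin K) := Fin.nontrivial_iff_two_le.2 hK
    exact exists_ne (c w)
  have h4 := hc.own w
  have h5 := hc.other w j hj
  have h6 : ((deg G w : ℤ) : ℝ) = (((deg G u : ℤ) * ((nbrs G c w j : ℤ) - nbrs G c w (c w)) : ℤ) : ℝ) := by
    push_cast
    rw [h4, h5]
    linear_combination (deg G w : ℝ) * h3
  have h7 : (deg G w : ℤ) = (deg G u : ℤ) * ((nbrs G c w j : ℤ) - nbrs G c w (c w)) := by
    exact_mod_cast h6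
  have h8 : (deg G u : ℤ) ∣ (deg G w : ℤ) := ⟨_, h7⟩
  exact_mod_cast h8

/-- Upper bound for the number of colours. -/
theorem upper_bound (hconn : G.Connected) {k : ℕ} (v : V) (hv : 0 < deg G v) (blob : V → Fin k)
    (htwin : ∀ u u', (u = v ∨ G.Adj v u) → (u' = v ∨ G.Adj v u') → blob u = blob u' →
      ∀ x, (x = u ∨ G.Adj u x) ↔ (x = u' ∨ G.Adj u' x))
    (hdiv : ∀ u, (u = v ∨ G.Adj v u) → ∃ w, ¬ deg G u ∣ deg G w)
    {K : ℕ} {α : ℝ} {c : V → Fin K} (hc : IsFAT G K α c) : K ≤ k := by
  have hk : 1 ≤ k := by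
    have := (blob v).2
    omega
  rcases Nat.lt_or_ge K 2 with hK | hK
  · omega
  -- α ≠ 0
  have hα : α ≠ 0 := by
    intro h0
    have hstep : ∀ x y, G.Adj x y → c x = c y := by
      intro x y hxy
      by_contra hne
      have h1 := hc.other x (c y) (Ne.symm hne)
      rw [h0, zero_mul] at h1
      have h2 : nbrs G c x (c y) = 0 := by exact_mod_cast h1
      unfold nbrs at h2
      rw [Set.ncard_eq_zero (Set.toFinite _)] at h2
      have : y ∈ {w : V | G.Adj x w ∧ c w = c y} := ⟨hxy, rfl⟩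
      rw [h2] at this
      exact this
    have hall : ∀ x y, c x = c y := by
      intro x y
      obtain ⟨p⟩ := hconn.preconnected x y
      induction p with
      | nil => rfl
      | cons h _ ih => exact (hstep _ _ h).trans ih
    obtain ⟨x, hx⟩ := hc.surj ⟨0, by omega⟩
    obtain ⟨y, hy⟩ := hc.surj ⟨1, by omega⟩
    have := hall x y
    rw [hx, hy] at this
    simp at this
  have hαpos : 0 < α := lt_of_le_of_ne hc.nonneg (Ne.symm hα)
  -- every colour occurs in the closed neighbourhood of v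
  have hcol : ∀ i : Fin K, ∃ u, (u = v ∨ G.Adj v u) ∧ c u = i := by
    intro i
    by_cases hi : i = c v
    · exact ⟨v, Or.inl rfl, hi.symm⟩
    · have h1 := hc.other v i hi
      have h2 : (0 : ℝ) < nbrs G c v i := by
        rw [h1]
        have : (0 : ℝ) < deg G v := by exact_mod_cast hv
        positivity
      have h3 : 0 < nbrs G c v i := by exact_mod_cast h2
      unfold nbrs at h3
      rw [Set.ncard_pos (Set.toFinite _)] at h3
      obtain ⟨u, hu1, hu2⟩ := h3
      exact ⟨u, Or.inr hu1, hu2⟩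
  choose f hf1 hf2 using hcol
  have hinj : Function.Injective (fun i => blob (f i)) := by
    intro i j hij
    by_contra hne
    obtain ⟨w, hw⟩ := hdiv (f i) (hf1 i)
    apply hw
    apply twin_dvd hK hc (htwin (f i) (f j) (hf1 i) (hf1 j) hij)
    rw [hf2, hf2]
    exact hne
  have := Fintype.card_le_of_injective _ hinj
  simpa using this

end Upper

theorem fatChromaticNumber_eq {V : Type} {G : SimpleGraph V} {k : ℕ} {α : ℝ} {c : V → Fin k}
    (hc : IsFAT G k α c) (hub : ∀ (K : ℕ) (α' : ℝ) (c' : V → Fin K), IsFAT G K α' c' → K ≤ k) :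
    fatChromaticNumber G = k := by
  apply IsGreatest.csSup_eq
  refine ⟨⟨α, c, hc⟩, ?_⟩
  rintro K ⟨α', c', h⟩
  exact hub K α' c' h

/-- Passing to the connected component of `v`. -/
theorem of_vertex {V : Type} [Finite V] (G : SimpleGraph V) {k : ℕ} {α : ℝ} (hα : 0 < α)
    (hα1 : α ≤ 1) (c : V → Fin k)
    (hother : ∀ v i, i ≠ c v → (nbrs G c v i : ℝ) = α * deg G v)
    (hown : ∀ v, (nbrs G c v (c v) : ℝ) = (1 - ((k : ℝ) - 1) * α) * deg G v)
    (v : V) (hv : 0 < deg G v)
    (htwin : ∀ u u', (u = v ∨ G.Adj v u) → (u' = v ∨ G.Adj v u') → c u = c u' →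
      ∀ x, (x = u ∨ G.Adj u x) ↔ (x = u' ∨ G.Adj u' x))
    (hdiv : ∀ u, (u = v ∨ G.Adj v u) → ∃ w, (w = v ∨ G.Adj v w) ∧ ¬ deg G u ∣ deg G w) :
    ∃ (W : Type) (_ : Finite W) (G' : SimpleGraph W), G'.Connected ∧
      fatChromaticNumber G' = k ∧ ∃ c' : W → Fin k, IsFAT G' k α c' := by
  classical
  set C := G.connectedComponentMk v with hC
  have hvC : v ∈ C := rfl
  have hclosed : ∀ {x y : V}, x ∈ C → G.Adj x y → y ∈ C := by
    intro x y hx hxy
    have h1 : G.connectedComponentMk x = C := hx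
    have h2 : G.connectedComponentMk y = G.connectedComponentMk x :=
      (SimpleGraph.ConnectedComponent.connectedComponentMk_eq_of_adj hxy).symm
    exact h2.trans h1
  have hcard : ∀ (u : C) (P : V → Prop),
      {w : C | C.toSimpleGraph.Adj u w ∧ P w.1}.ncard = {w : V | G.Adj u.1 w ∧ P w}.ncard := by
    intro u P
    rw [← Set.ncard_image_of_injective _ Subtype.val_injective]
    congr 1
    ext w
    simp only [Set.mem_image, Set.mem_ofPred_eq]
    constructor
    · rintro ⟨x, ⟨h1, h2⟩, rfl⟩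
      exact ⟨h1, h2⟩
    · rintro ⟨h1, h2⟩
      exact ⟨⟨w, hclosed u.2 h1⟩, ⟨h1, h2⟩, rfl⟩
  have hdeg : ∀ u : C, deg C.toSimpleGraph u = deg G u.1 := by
    intro u
    have := hcard u (fun _ => True)
    simpa [deg, SimpleGraph.neighborSet] using this
  have hnbrs : ∀ (u : C) (i : Fin k),
      nbrs C.toSimpleGraph (fun w : C => c w.1) u i = nbrs G c u.1 i := by
    intro u i
    exact hcard u (fun w => c w = i)
  have hFAT : IsFAT C.toSimpleGraph k α (fun w : C => c w.1) := by
    refine ⟨?_, hα.le, hα1, ?_, ?_⟩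
    · intro i
      by_cases hi : i = c v
      · exact ⟨⟨v, hvC⟩, hi.symm⟩
      · have h1 := hother v i hi
        have h2 : (0 : ℝ) < nbrs G c v i := by
          rw [h1]
          have : (0 : ℝ) < deg G v := by exact_mod_cast hv
          positivity
        have h3 : 0 < nbrs G c v i := by exact_mod_cast h2
        unfold nbrs at h3
        rw [Set.ncard_pos (Set.toFinite _)] at h3
        obtain ⟨u, hu1, hu2⟩ := h3
        exact ⟨⟨u, hclosed hvC hu1⟩, hu2⟩
    · intro u i hi
      rw [hnbrs, hdeg]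
      exact hother u.1 i hi
    · intro u
      rw [hnbrs, hdeg]
      exact hown u.1
  refine ⟨C, inferInstance, C.toSimpleGraph, C.connected_toSimpleGraph, ?_, _, hFAT⟩
  apply fatChromaticNumber_eq hFAT
  intro K α' c' hc'
  apply upper_bound C.connected_toSimpleGraph ⟨v, hvC⟩ (by rw [hdeg]; exact hv)
    (fun w : C => c w.1) _ _ hc'
  · intro u u' hu hu' hcc x
    have h1 : (u.1 = v ∨ G.Adj v u.1) := by
      rcases hu with h | h
      · exact Or.inl (congrArg Subtype.val h)
      · exact Or.inr h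
    have h2 : (u'.1 = v ∨ G.Adj v u'.1) := by
      rcases hu' with h | h
      · exact Or.inl (congrArg Subtype.val h)
      · exact Or.inr h
    have h3 := htwin u.1 u'.1 h1 h2 hcc x.1
    rw [Subtype.ext_iff, Subtype.ext_iff]
    exact h3
  · intro u hu
    have h1 : (u.1 = v ∨ G.Adj v u.1) := by
      rcases hu with h | h
      · exact Or.inl (congrArg Subtype.val h)
      · exact Or.inr h
    obtain ⟨w, hw1, hw2⟩ := hdiv u.1 h1
    have hwC : w ∈ C := by
      rcases hw1 with h | h
      · rw [h]; exact hvC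
      · exact hclosed hvC h
    refine ⟨⟨w, hwC⟩, ?_⟩
    rw [hdeg, hdeg]
    exact hw2

/-! ### The construction -/

/-- One colour class of the construction. -/
abbrev Blk (l s p t : ℕ) : Type := (Fin l × Fin s) ⊕ (Fin l × Fin p × Fin t)

/-- Adjacency inside one colour class. -/
def Rin {l s p t : ℕ} : Blk l s p t → Blk l s p t → Prop
  | Sum.inl x, Sum.inl y => x ≠ y
  | Sum.inr x, Sum.inr y => x.1 = y.1 ∧ x.2.1 = y.2.1 ∧ x.2.2 ≠ y.2.2
  | Sum.inl _, Sum.inr _ => False
  | Sum.inr _, Sum.inl _ => False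

/-- Adjacency between different colour classes. -/
def Rout {l s p t : ℕ} : Blk l s p t → Blk l s p t → Prop
  | Sum.inl _, Sum.inl _ => False
  | Sum.inr _, Sum.inr _ => False
  | Sum.inl x, Sum.inr y => x.1 = y.1
  | Sum.inr x, Sum.inl y => x.1 = y.1

theorem Rin_symm {l s p t : ℕ} {x y : Blk l s p t} (h : Rin x y) : Rin y x := by
  rcases x with x | x <;> rcases y with y | y <;> simp only [Rin] at h ⊢
  · exact h.symm
  · exact ⟨h.1.symm, h.2.1.symm, h.2.2.symm⟩

theorem Rout_symm {l s p t : ℕ} {x y : Blk l s p t} (h : Rout x y) : Rout y x := by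
  rcases x with x | x <;> rcases y with y | y <;> simp only [Rout] at h ⊢
  · exact h.symm
  · exact h.symm

theorem Rin_irrefl {l s p t : ℕ} {x : Blk l s p t} : ¬ Rin x x := by
  rcases x with x | x <;> simp [Rin]

/-- The graph of the construction. -/
def Gf (k l s p t : ℕ) : SimpleGraph (Fin k × Blk l s p t) where
  Adj u v := (u.1 = v.1 ∧ Rin u.2 v.2) ∨ (u.1 ≠ v.1 ∧ Rout u.2 v.2)
  symm := ⟨fun u v h => by
    rcases h with ⟨h1, h2⟩ | ⟨h1, h2⟩
    · exact Or.inl ⟨h1.symm, Rin_symm h2⟩
    · exact Or.inr ⟨h1.symm, Rout_symm h2⟩⟩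
  loopless := ⟨fun u h => by
    rcases h with ⟨_, h2⟩ | ⟨h1, _⟩
    · exact Rin_irrefl h2
    · exact h1 rfl⟩

theorem card_Rin_inl {l s p t : ℕ} (x : Fin l × Fin s) :
    {y : Blk l s p t | Rin (Sum.inl x) y}.ncard = l * s - 1 := by
  classical
  have h1 : {y : Blk l s p t | Rin (Sum.inl x) y}
      = Sum.inl '' (((({x} : Finset (Fin l × Fin s))ᶜ : Finset (Fin l × Fin s))) :
        Set (Fin l × Fin s)) := by
    ext y
    rcases y with y | y
    · simp [Rin, eq_comm]
    · simp [Rin]
  rw [h1, Set.ncard_image_of_injective _ Sum.inl_injective, Set.ncard_coe_finset,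
    Finset.card_compl]
  simp

theorem card_Rout_inl {l s p t : ℕ} (x : Fin l × Fin s) :
    {y : Blk l s p t | Rout (Sum.inl x) y}.ncard = p * t := by
  have h1 : {y : Blk l s p t | Rout (Sum.inl x) y}
      = (fun z : Fin p × Fin t => (Sum.inr (x.1, z) : Blk l s p t)) '' Set.univ := by
    ext y
    rcases y with y | y
    · simp [Rout]
    · simp only [Rout, Set.mem_ofPred_eq, Set.image_univ, Set.mem_range, Sum.inr.injEq]
      constructor
      · intro h
        exact ⟨y.2, by rw [h]⟩
      · rintro ⟨z, hz⟩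
        rw [← hz]
  rw [h1, Set.ncard_image_of_injective, Set.ncard_univ]
  · simp
  · intro z z' h
    simpa using h

theorem card_Rin_inr {l s p t : ℕ} (x : Fin l × Fin p × Fin t) :
    {y : Blk l s p t | Rin (Sum.inr x) y}.ncard = t - 1 := by
  classical
  have h1 : {y : Blk l s p t | Rin (Sum.inr x) y}
      = (fun z : Fin t => (Sum.inr (x.1, x.2.1, z) : Blk l s p t)) ''
        ((((({x.2.2} : Finset (Fin t))ᶜ : Finset (Fin t)))) : Set (Fin t)) := by
    ext y
    rcases y with y | y
    · simp [Rin]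
    · simp only [Rin, Set.mem_ofPred_eq, Set.mem_image, Sum.inr.injEq]
      constructor
      · rintro ⟨h1, h2, h3⟩
        refine ⟨y.2.2, ?_, ?_⟩
        · simpa [eq_comm] using h3
        · rw [h1, h2]
      · rintro ⟨z, hz, hy⟩
        rw [← hy]
        refine ⟨rfl, rfl, ?_⟩
        simpa [eq_comm] using hz
  rw [h1, Set.ncard_image_of_injective, Set.ncard_coe_finset, Finset.card_compl]
  · simp
  · intro z z' h
    simpa using h

theorem card_Rout_inr {l s p t : ℕ} (x : Fin l × Fin p × Fin t) :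
    {y : Blk l s p t | Rout (Sum.inr x) y}.ncard = s := by
  have h1 : {y : Blk l s p t | Rout (Sum.inr x) y}
      = (fun z : Fin s => (Sum.inl (x.1, z) : Blk l s p t)) '' Set.univ := by
    ext y
    rcases y with y | y
    · simp only [Rout, Set.mem_ofPred_eq, Set.image_univ, Set.mem_range, Sum.inl.injEq]
      constructor
      · intro h
        exact ⟨y.2, by rw [h]⟩
      · rintro ⟨z, hz⟩
        rw [← hz]
    · simp [Rout]
  rw [h1, Set.ncard_image_of_injective, Set.ncard_univ]
  · simp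
  · intro z z' h
    simpa using h

theorem nbrs_own {k l s p t : ℕ} (u : Fin k × Blk l s p t) :
    nbrs (Gf k l s p t) Prod.fst u u.1 = {y : Blk l s p t | Rin u.2 y}.ncard := by
  unfold nbrs
  rw [← Set.ncard_image_of_injective {y : Blk l s p t | Rin u.2 y} (f := fun y => (u.1, y))
    (fun y y' h => by simpa using h)]
  congr 1
  ext w
  simp only [Gf, Set.mem_ofPred_eq, Set.mem_image]
  constructor
  · rintro ⟨h1, h2⟩
    rcases h1 with ⟨_, h3⟩ | ⟨h3, _⟩
    · exact ⟨w.2, h3, by rw [← h2]⟩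
    · exact absurd h2.symm h3
  · rintro ⟨y, hy, rfl⟩
    exact ⟨Or.inl ⟨rfl, hy⟩, rfl⟩

theorem nbrs_other {k l s p t : ℕ} (u : Fin k × Blk l s p t) (i : Fin k) (hi : i ≠ u.1) :
    nbrs (Gf k l s p t) Prod.fst u i = {y : Blk l s p t | Rout u.2 y}.ncard := by
  unfold nbrs
  rw [← Set.ncard_image_of_injective {y : Blk l s p t | Rout u.2 y} (f := fun y => (i, y))
    (fun y y' h => by simpa using h)]
  congr 1
  ext w
  simp only [Gf, Set.mem_ofPred_eq, Set.mem_image]
  constructor
  · rintro ⟨h1, h2⟩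
    rcases h1 with ⟨h3, _⟩ | ⟨_, h3⟩
    · exact absurd (h2.symm.trans h3.symm) hi
    · exact ⟨w.2, h3, by rw [← h2]⟩
  · rintro ⟨y, hy, rfl⟩
    exact ⟨Or.inr ⟨fun h => hi h.symm, hy⟩, rfl⟩

theorem deg_eq_sum {V : Type} [Finite V] (G : SimpleGraph V) {k : ℕ} (c : V → Fin k) (v : V) :
    deg G v = ∑ i : Fin k, nbrs G c v i := by
  classical
  have := Fintype.ofFinite V
  unfold deg nbrs
  have h1 : (G.neighborSet v).ncard = (univ.filter (fun w => G.Adj v w)).card := by
    rw [← Set.ncard_coe_finset]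
    congr 1
    ext w
    simp
  have h2 : ∀ i : Fin k, {w : V | G.Adj v w ∧ c w = i}.ncard
      = ((univ.filter (fun w => G.Adj v w)).filter (fun w => c w = i)).card := by
    intro i
    rw [← Set.ncard_coe_finset]
    congr 1
    ext w
    simp
  rw [h1]
  simp_rw [h2]
  exact Finset.card_eq_sum_card_fiberwise (fun w _ => mem_coe.2 (mem_univ _))

theorem deg_Gf {k l s p t : ℕ} (u : Fin k × Blk l s p t) :
    deg (Gf k l s p t) u = {y : Blk l s p t | Rin u.2 y}.ncard
      + (k - 1) * {y : Blk l s p t | Rout u.2 y}.ncard := by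
  classical
  rw [deg_eq_sum _ Prod.fst, ← Finset.add_sum_erase _ _ (mem_univ u.1), nbrs_own]
  congr 1
  rw [Finset.sum_congr rfl (fun i hi => nbrs_other u i (ne_of_mem_erase hi))]
  simp

/-- Closed neighbourhood of a vertex of the second kind. -/
theorem closed_inr {k l s p t : ℕ} (i : Fin k) (j : Fin l) (q : Fin p) (r : Fin t)
    (x : Fin k × Blk l s p t) :
    (x = (i, Sum.inr (j, q, r)) ∨ (Gf k l s p t).Adj (i, Sum.inr (j, q, r)) x) ↔
      ((x.1 = i ∧ ∃ r' : Fin t, x.2 = Sum.inr (j, q, r')) ∨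
        (x.1 ≠ i ∧ ∃ z : Fin s, x.2 = Sum.inl (j, z))) := by
  obtain ⟨i', y⟩ := x
  constructor
  · rintro (h | h)
    · rw [Prod.mk.injEq] at h
      exact Or.inl ⟨h.1, r, h.2⟩
    · rcases h with ⟨h1, h2⟩ | ⟨h1, h2⟩
      · left
        refine ⟨h1.symm, ?_⟩
        rcases y with y | y
        · exact absurd h2 (by simp [Rin])
        · obtain ⟨y1, y2, y3⟩ := y
          simp only [Rin] at h2
          exact ⟨y3, by rw [h2.1, h2.2.1]⟩
      · right
        refine ⟨fun h => h1 h.symm, ?_⟩
        rcases y with y | y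
        · obtain ⟨y1, y2⟩ := y
          simp only [Rout] at h2
          exact ⟨y2, by rw [h2]⟩
        · exact absurd h2 (by simp [Rout])
  · rintro (⟨h1, r', h2⟩ | ⟨h1, z, h2⟩)
    · simp only at h1 h2
      subst h1 h2
      by_cases hr : r = r'
      · left; rw [hr]
      · right
        exact Or.inl ⟨rfl, rfl, rfl, hr⟩
    · simp only at h1 h2
      subst h2
      right
      exact Or.inr ⟨fun h => h1 h.symm, rfl⟩

/-- Closed neighbourhood of a vertex of the first kind. -/
theorem closed_inl {k l s p t : ℕ} (i : Fin k) (j : Fin l) (z : Fin s)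
    (x : Fin k × Blk l s p t) :
    (x = (i, Sum.inl (j, z)) ∨ (Gf k l s p t).Adj (i, Sum.inl (j, z)) x) ↔
      ((x.1 = i ∧ ∃ y : Fin l × Fin s, x.2 = Sum.inl y) ∨
        (x.1 ≠ i ∧ ∃ y : Fin p × Fin t, x.2 = Sum.inr (j, y))) := by
  obtain ⟨i', y⟩ := x
  constructor
  · rintro (h | h)
    · rw [Prod.mk.injEq] at h
      exact Or.inl ⟨h.1, _, h.2⟩
    · rcases h with ⟨h1, h2⟩ | ⟨h1, h2⟩
      · left
        refine ⟨h1.symm, ?_⟩
        rcases y with y | y
        · exact ⟨y, rfl⟩
        · exact absurd h2 (by simp [Rin])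
      · right
        refine ⟨fun h => h1 h.symm, ?_⟩
        rcases y with y | y
        · exact absurd h2 (by simp [Rout])
        · obtain ⟨y1, y2⟩ := y
          simp only [Rout] at h2
          exact ⟨y2, by rw [h2]⟩
  · rintro (⟨h1, y', h2⟩ | ⟨h1, y', h2⟩)
    · simp only at h1 h2
      subst h1 h2
      by_cases hr : (j, z) = y'
      · left; rw [hr]
      · right
        exact Or.inl ⟨rfl, hr⟩
    · simp only at h1 h2
      subst h2
      right
      exact Or.inr ⟨fun h => h1 h.symm, rfl⟩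

/-- The arithmetic behind the sizes of the blobs. -/
theorem arith {a e : ℕ} (ha : 0 < a) (he : 0 < e) (hco : Nat.Coprime a e) :
    ∃ l N' : ℕ, 0 < l ∧ 0 < N' ∧
      l * (a * (a * (e + 1))) = e * ((e * (a * (e + 1)) + 1) * N') + 1 := by
  set m := a * (e + 1) with hm
  have hm2 : 2 ≤ m := by
    calc 2 ≤ e + 1 := by omega
      _ ≤ a * (e + 1) := Nat.le_mul_of_pos_left _ ha
  have hs : 1 < a * m := lt_of_lt_of_le (by omega) (Nat.le_mul_of_pos_left _ ha)
  have hea : Nat.Coprime e a := hco.symm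
  have hem : Nat.Coprime e m := by
    rw [hm]
    refine Nat.Coprime.mul_right hea ?_
    simp
  have hM1 : Nat.Coprime (e * m + 1) m := by
    rw [Nat.coprime_mul_right_add_left]
    simp
  have ham : a ∣ m := Dvd.intro _ rfl
  have hM1a : Nat.Coprime (e * m + 1) a := Nat.Coprime.coprime_dvd_right ham hM1
  have hcop : Nat.Coprime (e * (e * m + 1)) (a * m) :=
    Nat.Coprime.mul_left (Nat.Coprime.mul_right hea hem) (Nat.Coprime.mul_right hM1a hM1)
  obtain ⟨x, hx⟩ := Nat.exists_mul_mod_eq_one_of_coprime hcop hs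
  have hxpos : 0 < x := by
    rcases Nat.eq_zero_or_pos x with h | h
    · have hx2 := hx.2
      rw [h] at hx2
      simp at hx2
    · exact h
  set y := (e * (e * m + 1)) * x / (a * m) with hy
  have hdecomp : (e * (e * m + 1)) * x = (a * m) * y + 1 := by
    have := Nat.div_add_mod ((e * (e * m + 1)) * x) (a * m)
    rw [hx.2] at this
    exact this.symm
  obtain ⟨s', hs'⟩ : ∃ s', a * m = s' + 1 := ⟨a * m - 1, by omega⟩
  refine ⟨y * s' + 1, x * s', by omega, Nat.mul_pos hxpos (by omega), ?_⟩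
  calc (y * s' + 1) * (a * m) = (a * m * y) * s' + (s' + 1) := by rw [hs']; ring
    _ = (a * m * y + 1) * s' + 1 := by ring
    _ = ((e * (e * m + 1)) * x) * s' + 1 := by rw [hdecomp]
    _ = e * ((e * m + 1) * (x * s')) + 1 := by ring

theorem main_pos (k a e : ℕ) (hk : 2 ≤ k) (ha : 0 < a) (he : 0 < e) (hco : Nat.Coprime a e) :
    ∃ (W : Type) (_ : Finite W) (G : SimpleGraph W), G.Connected ∧
      fatChromaticNumber G = k ∧
      ∃ c : W → Fin k, IsFAT G k ((a : ℝ) / ((e : ℝ) + ((k : ℝ) - 1) * a)) c := by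
  obtain ⟨l, N', hl, hN', hlN⟩ := arith ha he hco
  set m := a * (e + 1) with hm
  have hm2 : 2 ≤ m := by
    calc 2 ≤ e + 1 := by omega
      _ ≤ a * (e + 1) := Nat.le_mul_of_pos_left _ ha
  set N := (e * m + 1) * N' with hN
  set s := a * m with hs
  set t := e * m + 1 with ht
  set p := a * N' with hp
  set b := e + (k - 1) * a with hb
  have hspos : 0 < s := Nat.mul_pos ha (by omega)
  have hppos : 0 < p := Nat.mul_pos ha hN'
  have hbpos : 0 < b := by omega
  have hbR : ((e : ℝ) + ((k : ℝ) - 1) * a) = (b : ℝ) := by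
    rw [hb]
    push_cast [Nat.cast_sub (show 1 ≤ k by omega)]
    ring
  rw [hbR]
  have hbR0 : (b : ℝ) ≠ 0 := by positivity
  have heR : (1 - ((k : ℝ) - 1) * ((a : ℝ) / b)) = (e : ℝ) / b := by
    rw [eq_div_iff hbR0]
    have : ((k : ℝ) - 1) * (a / b) * b = ((k : ℝ) - 1) * a := by
      field_simp
    rw [sub_mul, this, ← hbR]
    ring
  -- counts
  have cin_l : ∀ x : Fin l × Fin s, {y : Blk l s p t | Rin (Sum.inl x) y}.ncard = e * N := by
    intro x
    rw [card_Rin_inl, hlN]
    simp
  have cout_l : ∀ x : Fin l × Fin s, {y : Blk l s p t | Rout (Sum.inl x) y}.ncard = a * N := by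
    intro x
    rw [card_Rout_inl, hN, hp, ht]
    ring
  have cin_r : ∀ x : Fin l × Fin p × Fin t,
      {y : Blk l s p t | Rin (Sum.inr x) y}.ncard = e * m := by
    intro x
    rw [card_Rin_inr, ht]
    simp
  have cout_r : ∀ x : Fin l × Fin p × Fin t,
      {y : Blk l s p t | Rout (Sum.inr x) y}.ncard = a * m := by
    intro x
    rw [card_Rout_inr]
  have deg_l : ∀ (i : Fin k) (x : Fin l × Fin s),
      deg (Gf k l s p t) (i, Sum.inl x) = b * N := by
    intro i x
    rw [deg_Gf, cin_l, cout_l, hb]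
    ring
  have deg_r : ∀ (i : Fin k) (x : Fin l × Fin p × Fin t),
      deg (Gf k l s p t) (i, Sum.inr x) = b * m := by
    intro i x
    rw [deg_Gf, cin_r, cout_r, hb]
    ring
  have hα : (0 : ℝ) < (a : ℝ) / b := by positivity
  have hα1 : (a : ℝ) / b ≤ 1 := by
    rw [div_le_one (by positivity)]
    have : a ≤ b := by
      rw [hb]
      have : 1 * a ≤ (k - 1) * a := Nat.mul_le_mul_right _ (by omega)
      omega
    exact_mod_cast this
  -- non-divisibilities
  have hmN : ¬ m ∣ N := by
    intro h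
    have h1 : m ∣ l * s := by rw [hs]; exact Dvd.dvd.mul_left (Dvd.intro_left _ rfl) _
    rw [hlN] at h1
    have h2 : m ∣ 1 := (Nat.dvd_add_right (Dvd.dvd.mul_left h e)).1 h1
    have := Nat.le_of_dvd one_pos h2
    omega
  have hNm : ¬ N ∣ m := by
    intro h
    have h1 := Nat.le_of_dvd (by omega) h
    have h2 : e * m + 1 ≤ N := by
      rw [hN]
      exact Nat.le_mul_of_pos_right _ hN'
    have h3 : m ≤ e * m := Nat.le_mul_of_pos_left _ he
    omega
  have hbmN : ¬ b * m ∣ b * N := fun h => hmN (Nat.dvd_of_mul_dvd_mul_left hbpos h)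
  have hbNm : ¬ b * N ∣ b * m := fun h => hNm (Nat.dvd_of_mul_dvd_mul_left hbpos h)
  -- the special vertex
  let j0 : Fin l := ⟨0, hl⟩
  let q0 : Fin p := ⟨0, hppos⟩
  let r0 : Fin t := ⟨0, by omega⟩
  let z0 : Fin s := ⟨0, hspos⟩
  let i0 : Fin k := ⟨0, by omega⟩
  let i1 : Fin k := ⟨1, by omega⟩
  have hi01 : i1 ≠ i0 := by simp [i0, i1]
  refine of_vertex (Gf k l s p t) hα hα1 Prod.fst ?_ ?_ (i0, Sum.inr (j0, q0, r0)) ?_ ?_ ?_
  · rintro ⟨i, x⟩ i' hi'
    rw [nbrs_other _ _ hi']
    rcases x with x | x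
    · rw [cout_l, deg_l]
      push_cast
      field_simp
    · rw [cout_r, deg_r]
      push_cast
      field_simp
  · rintro ⟨i, x⟩
    rw [nbrs_own, heR]
    rcases x with x | x
    · rw [cin_l, deg_l]
      push_cast
      field_simp
    · rw [cin_r, deg_r]
      push_cast
      field_simp
  · rw [deg_r]
    exact Nat.mul_pos hbpos (by omega)
  · intro u u' hu hu' huu' x
    rw [closed_inr] at hu hu'
    obtain ⟨i, y⟩ := u
    obtain ⟨i', y'⟩ := u'
    simp only at hu hu' huu'
    subst huu'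
    rcases hu with ⟨h1, r, h2⟩ | ⟨h1, z, h2⟩
    · rcases hu' with ⟨h1', r', h2'⟩ | ⟨h1', z', h2'⟩
      · subst h2 h2'
        rw [closed_inr, closed_inr]
      · exact absurd h1 h1'
    · rcases hu' with ⟨h1', r', h2'⟩ | ⟨h1', z', h2'⟩
      · exact absurd h1' h1
      · subst h2 h2'
        rw [closed_inl, closed_inl]
  · intro u hu
    rw [closed_inr] at hu
    obtain ⟨i, y⟩ := u
    simp only at hu
    rcases hu with ⟨h1, r, h2⟩ | ⟨h1, z, h2⟩
    · subst h2
      refine ⟨(i1, Sum.inl (j0, z0)), Or.inr (Or.inr ⟨hi01.symm, rfl⟩), ?_⟩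
      rw [deg_r, deg_l]
      exact hbmN
    · subst h2
      refine ⟨(i0, Sum.inr (j0, q0, r0)), Or.inl rfl, ?_⟩
      rw [deg_r, deg_l]
      exact hbNm

/-- The endpoint `α = 1/(k-1)`: complete graphs. -/
theorem main_zero (k : ℕ) (hk : 2 ≤ k) :
    ∃ (W : Type) (_ : Finite W) (G : SimpleGraph W), G.Connected ∧
      fatChromaticNumber G = k ∧
      ∃ c : W → Fin k, IsFAT G k (1 / ((k : ℝ) - 1)) c := by
  classical
  have hkR : (0 : ℝ) < (k : ℝ) - 1 := by
    have : (2 : ℝ) ≤ k := by exact_mod_cast hk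
    linarith
  have : Nonempty (Fin k) := ⟨⟨0, by omega⟩⟩
  have hdeg : ∀ v : Fin k, deg (⊤ : SimpleGraph (Fin k)) v = k - 1 := by
    intro v
    unfold deg
    have : (⊤ : SimpleGraph (Fin k)).neighborSet v
        = ((({v} : Finset (Fin k))ᶜ : Finset (Fin k)) : Set (Fin k)) := by
      ext x
      simp [eq_comm]
    rw [this, Set.ncard_coe_finset, Finset.card_compl]
    simp
  have hdegR : ∀ v : Fin k, (deg (⊤ : SimpleGraph (Fin k)) v : ℝ) = (k : ℝ) - 1 := by
    intro v
    rw [hdeg]
    push_cast [Nat.cast_sub (show 1 ≤ k by omega)]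
    ring
  have hFAT : IsFAT (⊤ : SimpleGraph (Fin k)) k (1 / ((k : ℝ) - 1)) (id : Fin k → Fin k) := by
    refine ⟨Function.surjective_id, by positivity, ?_, ?_, ?_⟩
    · rw [div_le_one hkR]
      have : (2 : ℝ) ≤ k := by exact_mod_cast hk
      linarith
    · intro v i hi
      rw [hdegR]
      have : nbrs (⊤ : SimpleGraph (Fin k)) id v i = 1 := by
        unfold nbrs
        rw [Set.ncard_eq_one]
        refine ⟨i, ?_⟩
        ext x
        simp only [SimpleGraph.top_adj, id, Set.mem_ofPred_eq, Set.mem_singleton_iff]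
        constructor
        · exact fun h => h.2
        · rintro rfl
          exact ⟨fun h => hi (by simpa using h.symm), rfl⟩
      rw [this]
      field_simp
      norm_num
    · intro v
      have : nbrs (⊤ : SimpleGraph (Fin k)) id v (id v) = 0 := by
        unfold nbrs
        rw [Set.ncard_eq_zero (Set.toFinite _)]
        ext x
        simp only [SimpleGraph.top_adj, id, Set.mem_ofPred_eq, Set.mem_empty_iff_false, iff_false]
        rintro ⟨h1, h2⟩
        exact h1 h2.symm
      rw [this]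
      have : (1 - ((k : ℝ) - 1) * (1 / ((k : ℝ) - 1))) = 0 := by
        field_simp
        norm_num
      rw [this]
      simp
  refine ⟨Fin k, inferInstance, ⊤, SimpleGraph.connected_top, ?_, _, hFAT⟩
  apply fatChromaticNumber_eq hFAT
  intro K α' c' hc'
  have := Fintype.card_le_of_surjective _ hc'.surj
  simpa using this

/-- **Main theorem.** For every integer `k ≥ 2` and rational `0 < α ≤ 1/(k-1)` there is a finite
connected graph with FAT chromatic number exactly `k` which admits a FAT `k`-colouring with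
parameter `α`. -/
theorem result (k : ℕ) (hk : 2 ≤ k) (α : ℚ) (h0 : 0 < α) (h1 : α ≤ 1 / ((k : ℚ) - 1)) :
    ∃ (W : Type) (_ : Finite W) (G : SimpleGraph W), G.Connected ∧
      fatChromaticNumber G = k ∧ ∃ c : W → Fin k, IsFAT G k (α : ℝ) c := by
  have hkQ : (0 : ℚ) < (k : ℚ) - 1 := by
    have : (2 : ℚ) ≤ k := by exact_mod_cast hk
    linarith
  obtain ⟨a, ha⟩ : ∃ a : ℕ, α.num = a := ⟨α.num.toNat, by
    rw [Int.toNat_of_nonneg (Rat.num_pos.2 h0).le]⟩
  have hapos : 0 < a := by
    have := Rat.num_pos.2 h0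
    rw [ha] at this
    exact_mod_cast this
  have hco : Nat.Coprime a α.den := by
    have := α.reduced
    rw [ha] at this
    simpa using this
  have hden : (0 : ℚ) < (α.den : ℚ) := by exact_mod_cast α.den_pos
  have hαeq : α = (a : ℚ) / (α.den : ℚ) := by
    have := Rat.num_div_den α
    rw [ha, Int.cast_natCast] at this
    exact this.symm
  have hle : (k - 1) * a ≤ α.den := by
    have h2 : ((k : ℚ) - 1) * a ≤ α.den := by
      rw [hαeq, div_le_div_iff₀ hden hkQ] at h1
      linarith
    have h3 : (((k - 1) * a : ℕ) : ℚ) ≤ (α.den : ℚ) := by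
      push_cast [Nat.cast_sub (show 1 ≤ k by omega)]
      exact h2
    exact_mod_cast h3
  obtain ⟨e, he⟩ := Nat.exists_eq_add_of_le hle
  have hco' : Nat.Coprime a e := by
    rw [he] at hco
    exact (Nat.coprime_mul_right_add_right a e (k - 1)).1 hco
  have hkR : (0 : ℝ) < (k : ℝ) - 1 := by exact_mod_cast hkQ
  have hdenR : ((α.den : ℕ) : ℝ) = (e : ℝ) + ((k : ℝ) - 1) * a := by
    rw [he]
    push_cast [Nat.cast_sub (show 1 ≤ k by omega)]
    ring
  have hαR : (α : ℝ) = (a : ℝ) / ((e : ℝ) + ((k : ℝ) - 1) * a) := by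
    rw [← hdenR]
    have : ((α : ℚ) : ℝ) = (((a : ℚ) / (α.den : ℚ) : ℚ) : ℝ) := by rw [← hαeq]
    rw [this]
    push_cast
    rfl
  rcases Nat.eq_zero_or_pos e with h | h
  · subst h
    have ha1 : a = 1 := by simpa using hco'
    subst ha1
    have : (α : ℝ) = 1 / ((k : ℝ) - 1) := by
      rw [hαR]
      simp
    rw [this]
    exact main_zero k hk
  · rw [hαR]
    exact main_pos k a e hk hapos h hco'

end Pool.Agent.Results.MP_2d49c6_co.PrescribedParameter
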